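import Pool.Agent.Helper44_Art.Stmt
import Pool.Agent.Helper44_Art.Api

set_option autoImplicit false

/-!
# Module BASE1: Artin groups with at most one generator are residually finite
-/

namespace Art.H48

open Art

theorem base1 : Base1Stmt := by
  intro S M hS
  apply Group.residuallyFinite_of_forall_exists_finite_monoidHom
  intro g hg
  rcases isEmpty_or_nonempty S with he | ⟨⟨s⟩⟩
  · exfalso
    apply hg
    have h1 : g ∈ Subgroup.closure (Set.range (gen M)) := by
      rw [closure_gen]; trivial
    rw [Set.range_eq_empty, Subgroup.closure_empty] at h1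
    exact h1
  · have h1 : g ∈ Subgroup.closure (Set.range (gen M)) := by
      rw [closure_gen]; trivial
    have h2 : Set.range (gen M) = {gen M s} := by
      ext x
      constructor
      · rintro ⟨t, rfl⟩
        rw [Subsingleton.elim t s]
        rfl
      · rintro rfl
        exact ⟨s, rfl⟩
    rw [h2, Subgroup.mem_closure_singleton] at h1
    obtain ⟨n, rfl⟩ := h1
    have hn : n ≠ 0 := by
      rintro rfl
      exact hg (zpow_zero _)
    obtain ⟨Φ, hΦ⟩ := lift M (G := Multiplicative (ZMod (n.natAbs + 1)))
      (fun _ => Multiplicative.ofAdd (1 : ZMod (n.natAbs + 1))) (fun _ _ _ => rfl)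
    refine ⟨Multiplicative (ZMod (n.natAbs + 1)), inferInstance, inferInstance, Φ, ?_⟩
    rw [map_zpow, hΦ]
    intro h3
    have h4 : (n : ZMod (n.natAbs + 1)) = 0 := by
      have h5 := congrArg Multiplicative.toAdd h3
      simpa using h5
    rw [ZMod.intCast_zmod_eq_zero_iff_dvd] at h4
    have h6 := Int.natAbs_dvd_natAbs.2 h4
    have h7 := Nat.le_of_dvd (Int.natAbs_pos.2 hn) h6
    rw [Int.natAbs_natCast] at h7
    omega

end Art.H48
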