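import Pool.Agent.Helper44_Art.Stmt

set_option autoImplicit false

/-!
# Module REFL: the reflection representation modulo a prime
-/

namespace Art.H48

open Art

section Dih

variable {k V : Type} [Field k] [AddCommGroup V] [Module k V]

/-- The product of two reflections with `a = z + z'`. -/
theorem dih_step (ls lt : V →ₗ[k] k) (es et : V) (z z' : k) (hz : z * z' = 1)
    (h1 : ls es = -2) (h2 : lt et = -2) (h3 : ls et = z + z') (h4 : lt es = z + z')
    (fs ft : Equiv.Perm V) (hfs : ∀ v, fs v = v + ls v • es) (hft : ∀ v, ft v = v + lt v • et)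
    (v : V) (n : ℕ) :
    (z - z') * lt (((fs * ft) ^ n) v) =
      (lt v * z + ls v) * (z ^ 2) ^ n - (lt v * z' + ls v) * (z' ^ 2) ^ n ∧
    (z - z') * ls (((fs * ft) ^ n) v) =
      -((lt v * z + ls v) * z' * (z ^ 2) ^ n - (lt v * z' + ls v) * z * (z' ^ 2) ^ n) ∧
    (z - z') • (((fs * ft) ^ n) v) = (z - z') • v +
      ((lt v * z + ls v) * (∑ i ∈ Finset.range n, (z ^ 2) ^ i) -
        (lt v * z' + ls v) * (∑ i ∈ Finset.range n, (z' ^ 2) ^ i)) • et +
      ((lt v * z + ls v) * z * (∑ i ∈ Finset.range n, (z ^ 2) ^ i) -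
        (lt v * z' + ls v) * z' * (∑ i ∈ Finset.range n, (z' ^ 2) ^ i)) • es := by
  induction n with
  | zero =>
    refine ⟨?_, ?_, ?_⟩
    · simp
      ring
    · simp
      linear_combination (0 : k) * hz
    · simp
  | succ n ih =>
    obtain ⟨i1, i2, i3⟩ := ih
    set u := ((fs * ft) ^ n) v with hu
    have hstep : ((fs * ft) ^ (n + 1)) v = u + lt u • et + (ls u + (z + z') * lt u) • es := by
      rw [pow_succ', Equiv.Perm.mul_apply, ← hu, Equiv.Perm.mul_apply, hft, hfs, map_add, map_smul,
        h3, smul_eq_mul, mul_comm (lt u)]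
    rw [hstep]
    have e1 : lt (u + lt u • et + (ls u + (z + z') * lt u) • es) =
        - lt u + (z + z') * (ls u + (z + z') * lt u) := by
      rw [map_add, map_add, map_smul, map_smul, h2, h4, smul_eq_mul, smul_eq_mul]
      ring
    have e2 : ls (u + lt u • et + (ls u + (z + z') * lt u) • es) =
        - (ls u + (z + z') * lt u) := by
      rw [map_add, map_add, map_smul, map_smul, h1, h3, smul_eq_mul, smul_eq_mul]
      ring
    have e3 : (z - z') * (ls u + (z + z') * lt u) =
        (lt v * z + ls v) * z * (z ^ 2) ^ n - (lt v * z' + ls v) * z' * (z' ^ 2) ^ n := by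
      linear_combination i2 + (z + z') * i1
    refine ⟨?_, ?_, ?_⟩
    · rw [e1, pow_succ, pow_succ]
      linear_combination - i1 + (z + z') * e3 + ((lt v * z + ls v) * (z ^ 2) ^ n -
        (lt v * z' + ls v) * (z' ^ 2) ^ n) * hz
    · rw [e2, pow_succ, pow_succ]
      linear_combination - e3 + ((lt v * z + ls v) * (z ^ 2) ^ n * z -
        (lt v * z' + ls v) * (z' ^ 2) ^ n * z') * hz
    · rw [smul_add, smul_add, i3, smul_smul, smul_smul, i1, e3, Finset.sum_range_succ,
        Finset.sum_range_succ]
      module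

theorem geom_zero (w : k) (m : ℕ) (hw : w ^ m = 1) (hne : w ≠ 1) :
    ∑ i ∈ Finset.range m, w ^ i = 0 := by
  rw [geom_sum_eq hne, hw, sub_self, zero_div]

theorem dih_pow (ls lt : V →ₗ[k] k) (es et : V) (z z' : k) (hz : z * z' = 1) (hne : z ^ 2 ≠ 1)
    (h1 : ls es = -2) (h2 : lt et = -2) (h3 : ls et = z + z') (h4 : lt es = z + z')
    (fs ft : Equiv.Perm V) (hfs : ∀ v, fs v = v + ls v • es) (hft : ∀ v, ft v = v + lt v • et)
    (m : ℕ) (hm : (z ^ 2) ^ m = 1) : (fs * ft) ^ m = 1 := by
  apply Equiv.ext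
  intro v
  have h := (dih_step ls lt es et z z' hz h1 h2 h3 h4 fs ft hfs hft v m).2.2
  have hz2 : z ^ 2 * z' ^ 2 = 1 := by rw [← mul_pow, hz, one_pow]
  have hm' : (z' ^ 2) ^ m = 1 := by
    have : (z ^ 2) ^ m * (z' ^ 2) ^ m = 1 := by rw [← mul_pow, hz2, one_pow]
    rwa [hm, one_mul] at this
  have hne' : z' ^ 2 ≠ 1 := by
    intro h5
    rw [h5, mul_one] at hz2
    exact hne hz2
  rw [geom_zero _ m hm hne, geom_zero _ m hm' hne'] at h
  simp only [mul_zero, sub_zero, zero_smul, add_zero] at h
  have hd : z - z' ≠ 0 := by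
    intro h6
    apply hne
    have : z = z' := sub_eq_zero.1 h6
    rw [pow_two]
    nth_rewrite 2 [this]
    exact hz
  exact smul_right_injective V hd h

theorem inf_pow (ls lt : V →ₗ[k] k) (es et : V)
    (h1 : ls es = -2) (h2 : lt et = -2) (h3 : ls et = 2) (h4 : lt es = 2)
    (fs ft : Equiv.Perm V) (hfs : ∀ v, fs v = v + ls v • es) (hft : ∀ v, ft v = v + lt v • et)
    (n : ℕ) : ((fs * ft) ^ n) es = es + (2 * (n : k)) • (es + et) := by
  induction n with
  | zero => simp
  | succ n ih =>
    rw [pow_succ', Equiv.Perm.mul_apply, ih, Equiv.Perm.mul_apply, hft, hfs]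
    simp only [map_add, map_smul, h1, h2, h3, h4, smul_eq_mul, Nat.cast_succ]
    module

end Dih

theorem exists_order (K : ℕ) (hK : K ≠ 0) : ∃ (p : ℕ) (_ : Fact p.Prime) (u : (ZMod p)ˣ),
    2 * K + 1 < p ∧ orderOf u = 2 * K := by
  have hK2 : 2 * K ≠ 0 := by omega
  obtain ⟨p, hp, hlt, hmod⟩ := Nat.exists_prime_gt_modEq_one (k := 2 * K) (2 * K + 1) hK2
  have : Fact p.Prime := ⟨hp⟩
  obtain ⟨g, hg⟩ := IsCyclic.exists_ofOrder_eq_natCard (α := (ZMod p)ˣ)
  rw [Nat.card_eq_fintype_card, ZMod.card_units] at hg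
  have hdvd : 2 * K ∣ p - 1 := (Nat.modEq_iff_dvd' hp.one_lt.le).1 hmod.symm
  obtain ⟨d, hd⟩ := hdvd
  have hd0 : d ≠ 0 := by
    rintro rfl
    have := hp.one_lt
    omega
  refine ⟨p, ⟨hp⟩, g ^ d, hlt, ?_⟩
  rw [orderOf_pow_of_dvd hd0 (by rw [hg, hd]; exact dvd_mul_left _ _), hg, hd,
    Nat.mul_div_cancel _ (Nat.pos_of_ne_zero hd0)]

theorem refl : ReflStmt := by
  intro S _ M
  classical
  set K : ℕ := ∏ q : S × S, (if M.M q.1 q.2 = 0 then 1 else M.M q.1 q.2) with hKdef
  have hK : K ≠ 0 := by
    rw [hKdef, Finset.prod_ne_zero_iff]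
    intro q _
    split_ifs with h
    · exact one_ne_zero
    · exact h
  have hdvd : ∀ s t, M.M s t ≠ 0 → M.M s t ∣ K := by
    intro s t h
    have h1 := Finset.dvd_prod_of_mem
      (fun q : S × S => if M.M q.1 q.2 = 0 then 1 else M.M q.1 q.2) (Finset.mem_univ (s, t))
    simp only [if_neg h] at h1
    exact h1
  obtain ⟨p, hp, u, hlt, hu⟩ := exists_order K hK
  let z : S → S → ZMod p := fun s t => ((u ^ (K / M.M s t) : (ZMod p)ˣ) : ZMod p)
  let z' : S → S → ZMod p := fun s t => (((u ^ (K / M.M s t))⁻¹ : (ZMod p)ˣ) : ZMod p)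
  have hzz : ∀ s t, z s t * z' s t = 1 := fun s t => Units.mul_inv _
  let a : S → S → ZMod p := fun s t =>
    if s = t then -2 else if M.M s t = 0 then 2 else z s t + z' s t
  have hsymm : ∀ s t, M.M s t = M.M t s := fun s t => M.symmetric s t
  have hasymm : ∀ s t, a s t = a t s := by
    intro s t
    simp only [a, z, z', hsymm s t, eq_comm (a := s)]
  let lam : S → (S → ZMod p) →ₗ[ZMod p] ZMod p := fun s =>
    ∑ j, a s j • LinearMap.proj (R := ZMod p) (φ := fun _ : S => ZMod p) j
  let e : S → (S → ZMod p) := fun s => Pi.single s 1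
  have hlam : ∀ s t, lam s (e t) = a s t := by
    intro s t
    simp only [lam, e, LinearMap.sum_apply, LinearMap.smul_apply, LinearMap.proj_apply,
      smul_eq_mul, Pi.single_apply]
    rw [Finset.sum_eq_single t]
    · simp
    · intro b _ hb
      simp [hb]
    · intro h
      exact absurd (Finset.mem_univ _) h
  have haself : ∀ s, a s s = -2 := fun s => by simp only [a, if_true]
  have hsq : ∀ s v, (v + lam s v • e s) + lam s (v + lam s v • e s) • e s = v := by
    intro s v
    rw [map_add, map_smul, hlam, haself]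
    simp only [smul_eq_mul]
    module
  let f : S → Equiv.Perm (S → ZMod p) := fun s =>
    { toFun := fun v => v + lam s v • e s
      invFun := fun v => v + lam s v • e s
      left_inv := hsq s
      right_inv := hsq s }
  have hf : ∀ s v, f s v = v + lam s v • e s := fun s v => rfl
  have hfsq : ∀ s, f s * f s = 1 := by
    intro s
    apply Equiv.ext
    intro v
    exact hsq s v
  have h2ne : (2 : ZMod p) ≠ 0 := by
    intro h
    have h1 : ((2 : ℕ) : ZMod p) = 0 := by exact_mod_cast h
    rw [ZMod.natCast_eq_zero_iff] at h1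
    have := Nat.le_of_dvd (by norm_num) h1
    omega
  refine ⟨{ F := Equiv.Perm (S → ZMod p), f := f, K := K, sq := hfsq, pow := ?_, inj := ?_,
            dvd := hdvd, inf := ?_ }⟩
  · intro s t hst
    by_cases he : s = t
    · subst he
      rw [M.diagonal, pow_one, hfsq]
    · have hm1 : M.M s t ≠ 1 := M.off_diagonal s t he
      have hm2 : 2 ≤ M.M s t := by omega
      have hast : a s t = z s t + z' s t := by simp only [a, if_neg he, if_neg hst]
      have hats : a t s = z s t + z' s t := by rw [← hasymm, hast]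
      have hcop : K / M.M s t * M.M s t = K := Nat.div_mul_cancel (hdvd s t hst)
      refine dih_pow (lam s) (lam t) (e s) (e t) (z s t) (z' s t) (hzz s t) ?_
        (by rw [hlam, haself]) (by rw [hlam, haself]) (by rw [hlam, hast]) (by rw [hlam, hats])
        (f s) (f t) (hf s) (hf t) (M.M s t) ?_
      · intro h
        have h1 : (u ^ (K / M.M s t)) ^ 2 = 1 := by
          apply Units.ext
          simpa [z] using h
        rw [← pow_mul] at h1
        have h2 := orderOf_dvd_of_pow_eq_one h1
        rw [hu] at h2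
        have h3 : 0 < K / M.M s t := by
          rcases Nat.eq_zero_or_pos (K / M.M s t) with h0 | h0
          · rw [h0, zero_mul] at hcop
            exact absurd hcop.symm hK
          · exact h0
        have h4 := Nat.le_of_dvd (by omega) h2
        have h5 : K / M.M s t * 2 ≤ K / M.M s t * M.M s t := Nat.mul_le_mul_left _ hm2
        omega
      · have h1 : ((u ^ (K / M.M s t)) ^ 2) ^ M.M s t = 1 := by
          have h0 : K / M.M s t * (2 * M.M s t) = orderOf u := by
            rw [hu]
            calc K / M.M s t * (2 * M.M s t) = 2 * (K / M.M s t * M.M s t) := by ring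
              _ = 2 * K := by rw [hcop]
          rw [← pow_mul, ← pow_mul, h0, pow_orderOf_eq_one]
        have h2 := congrArg (fun x : (ZMod p)ˣ => (x : ZMod p)) h1
        simpa [z] using h2
  · intro s t hst
    by_contra he
    have h1 : f s (e s) = f t (e s) := by rw [hst]
    rw [hf, hf, hlam, hlam, haself] at h1
    have h2 := congrFun h1 s
    simp only [e, Pi.add_apply, Pi.smul_apply, Pi.single_apply, if_true, if_neg he, smul_eq_mul,
      mul_one, mul_zero, add_zero] at h2
    apply h2ne
    linear_combination -h2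
  · intro s t hst h
    have he : s ≠ t := by
      rintro rfl
      rw [M.diagonal] at hst
      exact one_ne_zero hst
    have hast : a s t = 2 := by simp only [a, if_neg he, if_pos hst]
    have hats : a t s = 2 := by rw [← hasymm, hast]
    have h1 := inf_pow (lam s) (lam t) (e s) (e t) (by rw [hlam, haself]) (by rw [hlam, haself])
      (by rw [hlam, hast]) (by rw [hlam, hats]) (f s) (f t) (hf s) (hf t) K
    rw [h] at h1
    have h2 := congrFun h1 t
    simp only [e, Pi.add_apply, Pi.smul_apply, Pi.single_apply, if_true,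
      if_neg (Ne.symm he), smul_eq_mul, Equiv.Perm.one_apply, zero_add, mul_one] at h2
    have h3 : ((2 * K : ℕ) : ZMod p) = 0 := by
      push_cast
      exact h2.symm
    rw [ZMod.natCast_eq_zero_iff] at h3
    have h4 := Nat.le_of_dvd (by omega) h3
    omega

end Art.H48
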