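import Pool.Agent.Helper44_Art.Stmt
import Pool.Agent.Helper44_Art.Api

set_option autoImplicit false

/-!
# Module VR1: right-angled standard parabolic subgroups are virtual retracts
-/

namespace Art.H48

open Art

section Eps

variable {F A : Type} [Group F] [Group A]

open Classical in
/-- The permutation attached to a reflection. -/
noncomputable def eps (T : Set F) (ν : F → A) (τ : F) : Equiv.Perm (F × A) where
  toFun p := if p.1 * τ * p.1⁻¹ ∈ T then (p.1 * τ, ν (p.1 * τ * p.1⁻¹) * p.2) else p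
  invFun p := if p.1 * τ * p.1⁻¹ ∈ T then (p.1 * τ⁻¹, (ν (p.1 * τ * p.1⁻¹))⁻¹ * p.2) else p
  left_inv := by
    rintro ⟨g, a⟩
    by_cases h : g * τ * g⁻¹ ∈ T
    · have h2 : g * τ * τ * (g * τ)⁻¹ = g * τ * g⁻¹ := by group
      simp only [h, if_true, h2]
      simp
    · simp only [h, if_false]
  right_inv := by
    rintro ⟨g, a⟩
    by_cases h : g * τ * g⁻¹ ∈ T
    · have h2 : g * τ⁻¹ * τ * (g * τ⁻¹)⁻¹ = g * τ * g⁻¹ := by group
      simp only [h, if_true, h2]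
      simp
    · simp only [h, if_false]

theorem eps_mem (T : Set F) (ν : F → A) (τ g : F) (a : A) (h : g * τ * g⁻¹ ∈ T) :
    eps T ν τ (g, a) = (g * τ, ν (g * τ * g⁻¹) * a) := by
  simp only [eps, Equiv.coe_fn_mk, h, if_true]

theorem eps_not_mem (T : Set F) (ν : F → A) (τ g : F) (a : A) (h : g * τ * g⁻¹ ∉ T) :
    eps T ν τ (g, a) = (g, a) := by
  simp only [eps, Equiv.coe_fn_mk, h, if_false]

/-- Commutation of the permutations. -/
theorem eps_comm (T : Set F) (ν : F → A) (K : ℕ)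
    (h1 : ∀ t t' : F, t ∈ T → t' ∈ T → (t * t') ^ K = 1 →
      t * t' = t' * t ∧ ν t * ν t' = ν t' * ν t)
    (h2 : ∀ t t' : F, t * t = 1 → t' * t' = 1 → t ∈ T → (t * t') ^ K = 1 → t * t' * t ∈ T →
      t' ∈ T)
    (τ τ' : F) (hτ : τ * τ = 1) (hτ' : τ' * τ' = 1) (hK : (τ * τ') ^ K = 1) :
    Commute (eps T ν τ) (eps T ν τ') := by
  have hK' : (τ' * τ) ^ K = 1 := by
    have h3 : τ' * τ = (τ * τ')⁻¹ := by
      rw [mul_inv_rev]
      rw [eq_comm, inv_eq_of_mul_eq_one_right hτ', inv_eq_of_mul_eq_one_right hτ]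
    rw [h3, inv_pow, hK, inv_one]
  apply Equiv.ext
  rintro ⟨g, a⟩
  simp only [Equiv.Perm.mul_apply]
  have sq1 : g * τ * g⁻¹ * (g * τ * g⁻¹) = 1 := by
    have : g * τ * g⁻¹ * (g * τ * g⁻¹) = g * (τ * τ) * g⁻¹ := by group
    rw [this, hτ]; group
  have sq2 : g * τ' * g⁻¹ * (g * τ' * g⁻¹) = 1 := by
    have : g * τ' * g⁻¹ * (g * τ' * g⁻¹) = g * (τ' * τ') * g⁻¹ := by group
    rw [this, hτ']; group
  have p1 : (g * τ * g⁻¹ * (g * τ' * g⁻¹)) ^ K = 1 := by
    have : g * τ * g⁻¹ * (g * τ' * g⁻¹) = g * (τ * τ') * g⁻¹ := by group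
    rw [this, conj_pow, hK]; group
  have p2 : (g * τ' * g⁻¹ * (g * τ * g⁻¹)) ^ K = 1 := by
    have : g * τ' * g⁻¹ * (g * τ * g⁻¹) = g * (τ' * τ) * g⁻¹ := by group
    rw [this, conj_pow, hK']; group
  have e1 : g * τ' * τ * (g * τ')⁻¹ = g * τ' * g⁻¹ * (g * τ * g⁻¹) * (g * τ' * g⁻¹)⁻¹ := by group
  have e2 : g * τ * τ' * (g * τ)⁻¹ = g * τ * g⁻¹ * (g * τ' * g⁻¹) * (g * τ * g⁻¹)⁻¹ := by group
  by_cases m1 : g * τ * g⁻¹ ∈ T
  · by_cases m2 : g * τ' * g⁻¹ ∈ T
    · obtain ⟨c1, c2⟩ := h1 _ _ m1 m2 p1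
      have e3 : g * τ' * τ * (g * τ')⁻¹ = g * τ * g⁻¹ := by
        rw [e1, ← c1, mul_inv_cancel_right]
      have e4 : g * τ * τ' * (g * τ)⁻¹ = g * τ' * g⁻¹ := by
        rw [e2, c1, mul_inv_cancel_right]
      rw [eps_mem T ν τ' g a m2, eps_mem T ν τ g a m1, eps_mem, eps_mem, e3, e4]
      · have e5 : g * τ' * τ = g * τ * τ' := by
          have : g * τ * g⁻¹ * (g * τ' * g⁻¹) * g = g * τ' * g⁻¹ * (g * τ * g⁻¹) * g := by
            rw [c1]
          have l1 : g * τ * g⁻¹ * (g * τ' * g⁻¹) * g = g * τ * τ' := by group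
          have l2 : g * τ' * g⁻¹ * (g * τ * g⁻¹) * g = g * τ' * τ := by group
          rw [l1, l2] at this
          exact this.symm
        rw [e5, ← mul_assoc, ← mul_assoc, c2]
      · rw [e4]; exact m2
      · rw [e3]; exact m1
    · have e3 : g * τ * τ' * (g * τ)⁻¹ ∉ T := by
        intro h
        apply m2
        apply h2 _ _ sq1 sq2 m1 p1
        rw [e2, inv_eq_of_mul_eq_one_right sq1] at h
        exact h
      rw [eps_not_mem T ν τ' g a m2, eps_mem T ν τ g a m1, eps_not_mem _ _ _ _ _ e3]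
  · by_cases m2 : g * τ' * g⁻¹ ∈ T
    · have e3 : g * τ' * τ * (g * τ')⁻¹ ∉ T := by
        intro h
        apply m1
        apply h2 _ _ sq2 sq1 m2 p2
        rw [e1, inv_eq_of_mul_eq_one_right sq2] at h
        exact h
      rw [eps_not_mem T ν τ g a m1, eps_mem T ν τ' g a m2, eps_not_mem _ _ _ _ _ e3]
    · rw [eps_not_mem T ν τ' g a m2, eps_not_mem T ν τ g a m1, eps_not_mem T ν τ' g a m2]

end Eps

/-- Reflections in a dihedral window. -/
theorem window {F : Type} [Group F] (s t : F) (hs : s * s = 1) (ht : t * t = 1) (c : F)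
    (i j m K : ℕ) (hm : (s * t) ^ m = 1) (hK : m ∣ K) :
    (c⁻¹ * ((s * t) ^ i * s) * c) * (c⁻¹ * ((s * t) ^ i * s) * c) = 1 ∧
    ((c⁻¹ * ((s * t) ^ i * s) * c) * (c⁻¹ * ((s * t) ^ j * s) * c)) ^ K = 1 := by
  have hsi : s⁻¹ = s := inv_eq_of_mul_eq_one_right hs
  have hti : t⁻¹ = t := inv_eq_of_mul_eq_one_right ht
  have key : ∀ n : ℕ, s * (s * t) ^ n * s = ((s * t) ^ n)⁻¹ := by
    intro n
    have h1 : s * (s * t) ^ n * s⁻¹ = (s * (s * t) * s⁻¹) ^ n := by rw [conj_pow]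
    have h2 : s * (s * t) * s⁻¹ = (s * t)⁻¹ := by
      rw [mul_inv_rev, hsi, hti, ← mul_assoc, hs, one_mul]
    rw [hsi] at h1 h2
    rw [h1, h2, inv_pow]
  have hmul : ∀ i j : ℕ, (c⁻¹ * ((s * t) ^ i * s) * c) * (c⁻¹ * ((s * t) ^ j * s) * c) =
      c⁻¹ * ((s * t) ^ i * ((s * t) ^ j)⁻¹) * c := by
    intro i j
    have : (c⁻¹ * ((s * t) ^ i * s) * c) * (c⁻¹ * ((s * t) ^ j * s) * c) =
      c⁻¹ * ((s * t) ^ i * (s * (s * t) ^ j * s)) * c := by
      simp only [mul_assoc, mul_inv_cancel_left]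
    rw [this, key j]
  refine ⟨by rw [hmul, mul_inv_cancel, mul_one, inv_mul_cancel], ?_⟩
  rw [hmul]
  have h3 : (c⁻¹ * ((s * t) ^ i * ((s * t) ^ j)⁻¹) * c) ^ K =
      c⁻¹ * ((s * t) ^ i * ((s * t) ^ j)⁻¹) ^ K * c := by
    have := conj_pow (i := K) (a := c⁻¹) (b := (s * t) ^ i * ((s * t) ^ j)⁻¹)
    rw [inv_inv] at this
    exact this
  rw [h3]
  have h4 : ((s * t) ^ i * ((s * t) ^ j)⁻¹) ^ K = 1 := by
    have hc : Commute ((s * t) ^ i) ((s * t) ^ j)⁻¹ :=
      ((Commute.refl (s * t)).pow_pow i j).inv_right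
    rw [hc.mul_pow]
    obtain ⟨d, rfl⟩ := hK
    have hx : ∀ n : ℕ, ((s * t) ^ n) ^ (m * d) = 1 := by
      intro n
      rw [← pow_mul, show n * (m * d) = m * (n * d) by ring, pow_mul, hm, one_pow]
    rw [inv_pow, hx, hx, one_mul, inv_one]
  rw [h4, mul_one, inv_mul_cancel]

theorem vr1 (hR : ReflStmt) (hA : ActStmt) (hRet : RetStmt) : VR1Stmt := by
  intro S _ M S0 hra Phi hPhi
  obtain ⟨D⟩ := hR M
  classical
  set A := Gp (res M S0) with hAdef
  let T : Set D.F := D.f '' S0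
  let ν : D.F → A := fun τ => if h : ∃ x : S0, D.f x.1 = τ then gen (res M S0) h.choose else 1
  have hν : ∀ x : S0, ν (D.f x.1) = gen (res M S0) x := by
    intro x
    have h : ∃ y : S0, D.f y.1 = D.f x.1 := ⟨x, rfl⟩
    have h1 : ν (D.f x.1) = gen (res M S0) h.choose := by
      simp only [ν]
      rw [dif_pos h]
    rw [h1]
    congr 1
    exact Subtype.ext (D.inj _ _ h.choose_spec)
  -- two letters of S0 whose reflections generate a group of exponent dividing K commute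
  have hcomm : ∀ x ∈ S0, ∀ y ∈ S0, (D.f x * D.f y) ^ D.K = 1 →
      D.f x * D.f y = D.f y * D.f x := by
    intro x hx y hy hxy
    by_cases he : x = y
    · rw [he]
    · rcases hra x hx y hy he with h0 | h2
      · exact absurd hxy (D.inf x y h0)
      · have h3 := D.pow x y (by rw [h2]; norm_num)
        rw [h2, pow_two] at h3
        have h4 : D.f x * D.f y = (D.f x * D.f y)⁻¹ := (inv_eq_of_mul_eq_one_right h3).symm
        rw [mul_inv_rev, inv_eq_of_mul_eq_one_right (D.sq x),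
          inv_eq_of_mul_eq_one_right (D.sq y)] at h4
        exact h4
  have hcomm2 : ∀ x y : S0, (D.f x.1 * D.f y.1) ^ D.K = 1 →
      gen (res M S0) x * gen (res M S0) y = gen (res M S0) y * gen (res M S0) x := by
    intro x y hxy
    by_cases he : x = y
    · rw [he]
    · rcases hra x.1 x.2 y.1 y.2 (fun h => he (Subtype.ext h)) with h0 | h2
      · exact absurd hxy (D.inf x.1 y.1 h0)
      · have h3 := relHolds (res M S0) x y (by rw [res_apply, h2]; norm_num)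
        rw [res_apply, h2, alt_two, alt_two] at h3
        exact h3
  have h1 : ∀ t t' : D.F, t ∈ T → t' ∈ T → (t * t') ^ D.K = 1 →
      t * t' = t' * t ∧ ν t * ν t' = ν t' * ν t := by
    rintro _ _ ⟨x, hx, rfl⟩ ⟨y, hy, rfl⟩ hK
    refine ⟨hcomm x hx y hy hK, ?_⟩
    rw [hν ⟨x, hx⟩, hν ⟨y, hy⟩]
    exact hcomm2 _ _ hK
  have h2 : ∀ t t' : D.F, t * t = 1 → t' * t' = 1 → t ∈ T → (t * t') ^ D.K = 1 →
      t * t' * t ∈ T → t' ∈ T := by
    rintro _ t' - - ⟨x, hx, rfl⟩ hK ⟨y, hy, hxy⟩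
    have h3 : t' = D.f x * D.f y * D.f x := by
      rw [hxy]
      have : D.f x * (D.f x * t' * D.f x) * D.f x = (D.f x * D.f x) * t' * (D.f x * D.f x) := by
        simp only [mul_assoc]
      rw [this, D.sq x, one_mul, mul_one]
    have h4 : (D.f y * D.f x) ^ D.K = 1 := by
      have h5 : D.f x * t' = D.f y * D.f x := by
        rw [h3, ← mul_assoc, ← mul_assoc, D.sq x, one_mul]
      rw [h5] at hK
      exact hK
    have h6 := hcomm y hy x hx h4
    refine ⟨y, hy, ?_⟩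
    rw [h3, ← h6, mul_assoc, D.sq x, mul_one]
  have hbraid : ∀ (c : D.F) (s t : S), M.M s t ≠ 0 →
      ((List.range (M.M s t)).map
        (fun k => eps T ν (c⁻¹ * ((D.f s * D.f t) ^ k * D.f s) * c))).prod =
      ((List.range (M.M s t)).map
        (fun k => eps T ν (c⁻¹ * ((D.f s * D.f t) ^ k * D.f s) * c))).reverse.prod := by
    intro c s t hst
    apply List.Perm.prod_eq'
    · exact (List.reverse_perm _).symm
    · rw [List.pairwise_map]
      apply List.Pairwise.imp (R := fun _ _ => True)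
      · intro i j _
        have w := window (D.f s) (D.f t) (D.sq s) (D.sq t) c i j (M.M s t) D.K (D.pow s t hst)
          (D.dvd s t hst)
        have w' := window (D.f s) (D.f t) (D.sq s) (D.sq t) c j i (M.M s t) D.K (D.pow s t hst)
          (D.dvd s t hst)
        exact eps_comm T ν D.K h1 h2 _ _ w.1 w'.1 w.2
      · exact List.pairwise_of_forall (fun _ _ => trivial)
  obtain ⟨Φ, hΦ⟩ := hA M D.f (eps T ν) D.sq D.pow hbraid
  refine hRet M D.f T ν Φ D.sq ?_ ?_ Phi S0 (gen (res M S0)) (closure_gen _) hPhi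
    (fun x => ⟨x.1, x.2, rfl⟩) hν
  · intro s g a c hm
    rw [hΦ, eps_mem _ _ _ _ _ hm]
  · intro s g a c hm
    rw [hΦ, eps_not_mem _ _ _ _ _ hm]

end Art.H48
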