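import Pool.Agent.Helper44_Art.Stmt2

set_option autoImplicit false
set_option linter.unusedSectionVars false

/-!
# Modules ORD and ROOT
-/

namespace Art.H48

open Art Art.Lin

theorem ord : OrdStmt := by
  intro S _ _ M k _ L s t h hm
  apply Nat.dvd_antisymm
  · exact orderOf_dvd_of_pow_eq_one (L.f_pow s t hm)
  · set n := orderOf (L.f s * L.f t) with hn
    have h1 : (L.f s * L.f t) ^ n = 1 := pow_orderOf_eq_one _
    have h2 := L.rot_pow_Ep s t h hm n
    rw [h1, one_apply] at h2
    have h3 : (((L.zz s t) ^ 2) ^ n - 1) • L.Ep s t = 0 := by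
      rw [sub_smul, ← h2, one_smul, sub_self]
    rcases smul_eq_zero.1 h3 with h4 | h4
    · have h5 : (L.zz s t) ^ (2 * n) = 1 := by
        rw [pow_mul]
        exact sub_eq_zero.1 h4
      have h6 := ((L.zz_prim s t hm).pow_eq_one_iff_dvd (2 * n)).1 h5
      exact Nat.dvd_of_mul_dvd_mul_left (by norm_num) h6
    · exact absurd h4 (L.Ep_ne_zero s t h hm)

section

variable {S : Type} [Fintype S] [DecidableEq S] {M : CoxeterMatrix S} {k : Type} [Field k]
  (L : Lin M k)

theorem root_ne (x y : S) (i : ℕ) (h : x ≠ y) : L.root x y i =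
    (((L.zz x y) ^ (i + 1) - ((L.zz x y)⁻¹) ^ (i + 1)) / (L.zz x y - (L.zz x y)⁻¹)) • e x +
    (((L.zz x y) ^ i - ((L.zz x y)⁻¹) ^ i) / (L.zz x y - (L.zz x y)⁻¹)) • e y := by
  unfold Lin.root
  rw [if_neg h]

theorem B_root_right (x y : S) (i : ℕ) (h : x ≠ y) (u : S → k) : L.B u (L.root x y i) =
    (((L.zz x y) ^ (i + 1) - ((L.zz x y)⁻¹) ^ (i + 1)) / (L.zz x y - (L.zz x y)⁻¹)) *
      L.B u (e x) +
    (((L.zz x y) ^ i - ((L.zz x y)⁻¹) ^ i) / (L.zz x y - (L.zz x y)⁻¹)) * L.B u (e y) := by
  rw [root_ne L x y i h, B_add_right, B_smul_right, B_smul_right]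

theorem B_e_self (x : S) : L.B (e x) (e x) = 2 := by
  rw [B_e_e, L.cdiag, neg_neg]

theorem B_e_ne (x y : S) (h : x ≠ y) (hm : M.M x y ≠ 0) :
    L.B (e x) (e y) = -(L.zz x y + (L.zz x y)⁻¹) := by
  rw [B_e_e, L.c_eq x y h hm]

theorem B_e_ne' (x y : S) (h : x ≠ y) (hm : M.M x y ≠ 0) :
    L.B (e y) (e x) = -(L.zz x y + (L.zz x y)⁻¹) := by
  rw [B_symm, B_e_ne L x y h hm]

theorem B_root_root (x y : S) (i : ℕ) (h : x ≠ y) (hm : M.M x y ≠ 0) :
    L.B (L.root x y i) (L.root x y i) = 2 := by
  have hz := L.zz_ne_zero x y hm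
  have hd := L.zsub_ne x y h hm
  rw [B_root_right L x y i h, L.B_symm _ (e x), L.B_symm _ (e y), B_root_right L x y i h,
    B_root_right L x y i h, B_e_self, B_e_self, B_e_ne L x y h hm, B_e_ne' L x y h hm]
  rw [pow_succ, pow_succ, inv_pow]
  have hp : (L.zz x y) ^ i ≠ 0 := pow_ne_zero _ hz
  set p := (L.zz x y) ^ i with hpd
  set z := L.zz x y with hzd
  have e1 : (z - z⁻¹) = (z ^ 2 - 1) / z := by field_simp
  have hz2 : z ^ 2 - 1 ≠ 0 := by
    intro h0
    apply hd
    rw [e1, h0, zero_div]
  rw [e1]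
  field_simp
  ring

theorem B_Ep_root (x y : S) (i : ℕ) (h : x ≠ y) (hm : M.M x y ≠ 0) :
    L.B (L.Ep x y) (L.root x y i) = ((L.zz x y)⁻¹) ^ i * (L.zz x y - (L.zz x y)⁻¹) := by
  have hz := L.zz_ne_zero x y hm
  have hd := L.zsub_ne x y h hm
  rw [B_root_right L x y i h]
  unfold Ep
  rw [B_add_left, B_smul_left, B_add_left, B_smul_left, B_e_self, B_e_self, B_e_ne L x y h hm,
    B_e_ne' L x y h hm]
  rw [pow_succ, pow_succ, inv_pow]
  have hp : (L.zz x y) ^ i ≠ 0 := pow_ne_zero _ hz
  set p := (L.zz x y) ^ i with hpd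
  set z := L.zz x y with hzd
  have e1 : (z - z⁻¹) = (z ^ 2 - 1) / z := by field_simp
  have hz2 : z ^ 2 - 1 ≠ 0 := by
    intro h0
    apply hd
    rw [e1, h0, zero_div]
  rw [e1]
  field_simp
  ring

theorem B_Em_root (x y : S) (i : ℕ) (h : x ≠ y) (hm : M.M x y ≠ 0) :
    L.B (L.Em x y) (L.root x y i) = -((L.zz x y) ^ i * (L.zz x y - (L.zz x y)⁻¹)) := by
  have hz := L.zz_ne_zero x y hm
  have hd := L.zsub_ne x y h hm
  rw [B_root_right L x y i h]
  unfold Em
  rw [B_add_left, B_smul_left, B_add_left, B_smul_left, B_e_self, B_e_self, B_e_ne L x y h hm,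
    B_e_ne' L x y h hm]
  rw [pow_succ, pow_succ, inv_pow]
  have hp : (L.zz x y) ^ i ≠ 0 := pow_ne_zero _ hz
  set p := (L.zz x y) ^ i with hpd
  set z := L.zz x y with hzd
  have e1 : (z - z⁻¹) = (z ^ 2 - 1) / z := by field_simp
  have hz2 : z ^ 2 - 1 ≠ 0 := by
    intro h0
    apply hd
    rw [e1, h0, zero_div]
  rw [e1]
  field_simp
  ring

theorem ref_root (x y : S) (i : ℕ) (h : x ≠ y) (hm : M.M x y ≠ 0) (u : S → k) :
    (ref L.f x y i).1 u = u - L.B u (L.root x y i) • L.root x y i := by
  have hz := L.zz_ne_zero x y hm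
  have hd := L.zsub_ne x y h hm
  have hrd : (L.zz x y - (L.zz x y)⁻¹) • L.root x y i =
      ((L.zz x y) ^ (i + 1) - ((L.zz x y)⁻¹) ^ (i + 1)) • e x +
      ((L.zz x y) ^ i - ((L.zz x y)⁻¹) ^ i) • e y := by
    rw [root_ne L x y i h, smul_add, smul_smul, smul_smul, mul_div_cancel₀ _ hd,
      mul_div_cancel₀ _ hd]
  obtain ⟨a, b, w, hu, hwx, hwy⟩ := L.decomp x y h hm u
  have hp : (L.zz x y) ^ i ≠ 0 := pow_ne_zero _ hz
  have e1 : (L.zz x y) ^ (i + 1) = (L.zz x y) ^ i * L.zz x y := pow_succ _ _
  have e2 : ((L.zz x y)⁻¹) ^ (i + 1) = ((L.zz x y) ^ i)⁻¹ * (L.zz x y)⁻¹ := by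
    rw [pow_succ, inv_pow]
  have e3 : ((L.zz x y)⁻¹) ^ i = ((L.zz x y) ^ i)⁻¹ := inv_pow _ _
  have e5 : ((L.zz x y) ^ 2) ^ i = ((L.zz x y) ^ i) ^ 2 := by
    rw [← pow_mul, ← pow_mul, mul_comm]
  have e4 : (((L.zz x y) ^ 2)⁻¹) ^ i = (((L.zz x y) ^ i) ^ 2)⁻¹ := by
    rw [inv_pow, e5]
  have h1 : (ref L.f x y i).1 (L.Ep x y) =
      L.Ep x y - L.B (L.Ep x y) (L.root x y i) • L.root x y i := by
    rw [B_Ep_root L x y i h hm, mul_smul, hrd]
    unfold ref
    rw [mul_apply, f_Ep L x y h hm, rot_pow_Em L x y h hm]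
    unfold Ep Em
    ext r
    simp only [Pi.add_apply, Pi.sub_apply, Pi.smul_apply, smul_eq_mul]
    rw [e1, e2, e3, e4]
    set p := (L.zz x y) ^ i with hpd
    set z := L.zz x y with hzd
    field_simp
    ring
  have h2 : (ref L.f x y i).1 (L.Em x y) =
      L.Em x y - L.B (L.Em x y) (L.root x y i) • L.root x y i := by
    rw [B_Em_root L x y i h hm, neg_smul, mul_smul, hrd]
    unfold ref
    rw [mul_apply, f_Em L x y h hm, rot_pow_Ep L x y h hm]
    unfold Ep Em
    ext r
    simp only [Pi.add_apply, Pi.sub_apply, Pi.smul_apply, smul_eq_mul, Pi.neg_apply]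
    rw [e1, e2, e3, e5]
    set p := (L.zz x y) ^ i with hpd
    set z := L.zz x y with hzd
    field_simp
    ring
  have h3 : (ref L.f x y i).1 w = w - L.B w (L.root x y i) • L.root x y i := by
    rw [B_root_right L x y i h, hwx, hwy, mul_zero, mul_zero, add_zero, zero_smul, sub_zero]
    unfold ref
    rw [mul_apply, L.f_fix x w hwx, L.rot_fix x y w hwx hwy]
  rw [hu, map_add, map_add, map_smul, map_smul, h1, h2, h3, B_add_left, B_add_left, B_smul_left,
    B_smul_left]
  ext r
  simp only [Pi.add_apply, Pi.sub_apply, Pi.smul_apply, smul_eq_mul]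
  ring

theorem f_inj (x y : S) (h : L.f x = L.f y) : x = y := by
  by_contra hne
  have h1 : (L.f x).1 (e x) = (L.f y).1 (e x) := by rw [h]
  rw [f_e_self, f_e] at h1
  have h2 := congrFun h1 x
  simp only [Pi.neg_apply, Pi.add_apply, Pi.smul_apply, smul_eq_mul, e, Pi.single_eq_same,
    Pi.single_eq_of_ne hne, mul_zero, add_zero] at h2
  apply L.two_ne
  linear_combination -h2

end

theorem root : RootStmt := by
  intro S _ _ M k _ L x y i hm
  by_cases h : x = y
  · subst h
    have hr : L.root x x i = e x := by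
      unfold Lin.root
      rw [if_pos rfl]
    have href : ref L.f x x i = L.f x := by
      unfold ref
      rw [L.f_sq, one_pow, one_mul]
    refine ⟨?_, ?_, ?_⟩
    · intro u
      rw [href, hr, L.f_apply']
    · rw [hr, B_e_self]
    · intro a
      rw [hr]
      unfold InSupp
      rw [href]
      by_cases ha : a = x
      · subst ha
        simp [e]
      · simp [e, ha]
  · refine ⟨ref_root L x y i h hm, B_root_root L x y i h hm, ?_⟩
    have hB := B_root_root L x y i h hm
    have hyx : y ≠ x := fun h' => h h'.symm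
    set β := L.root x y i with hβ
    have hshape : ∃ p q : k, β = p • e x + q • e y := ⟨_, _, root_ne L x y i h⟩
    obtain ⟨p, q, hpq⟩ := hshape
    have hx : β x = p := by
      rw [hpq]
      simp [e, h]
    have hy : β y = q := by
      rw [hpq]
      simp [e, hyx]
    have hB1 : p = 0 → ref L.f x y i = L.f y := by
      intro hp
      apply L.ext_iso
      intro u
      rw [ref_root L x y i h hm, L.f_apply']
      rw [hp, zero_smul, zero_add] at hpq
      have hq : q * q = 1 := by
        rw [hpq, B_smul_left, B_smul_right, B_e_self] at hB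
        have h2 := L.two_ne
        have h3 : (2 : k) * (q * q - 1) = 0 := by linear_combination hB
        rcases mul_eq_zero.1 h3 with h4 | h4
        · exact absurd h4 h2
        · exact sub_eq_zero.1 h4
      rw [← hβ, hpq, B_smul_right, smul_smul]
      have h4 : q * L.B u (e y) * q = L.B u (e y) := by
        linear_combination (L.B u (e y)) * hq
      rw [h4]
    have hB2 : q = 0 → ref L.f x y i = L.f x := by
      intro hq
      apply L.ext_iso
      intro u
      rw [ref_root L x y i h hm, L.f_apply']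
      rw [hq, zero_smul, add_zero] at hpq
      have hp : p * p = 1 := by
        rw [hpq, B_smul_left, B_smul_right, B_e_self] at hB
        have h2 := L.two_ne
        have h3 : (2 : k) * (p * p - 1) = 0 := by linear_combination hB
        rcases mul_eq_zero.1 h3 with h4 | h4
        · exact absurd h4 h2
        · exact sub_eq_zero.1 h4
      rw [← hβ, hpq, B_smul_right, smul_smul]
      have h4 : p * L.B u (e x) * p = L.B u (e x) := by
        linear_combination (L.B u (e x)) * hp
      rw [h4]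
    have hkey : ∀ t : S, ref L.f x y i = L.f t → (2 : k) • β = L.B β (e t) • e t := by
      intro t ht
      have h1 := ref_root L x y i h hm β
      rw [ht, L.f_apply', ← hβ, hB] at h1
      have h2 : L.B β (e t) • e t = (2 : k) • β := sub_right_injective h1
      exact h2.symm
    have hB3 : ref L.f x y i = L.f y → p = 0 := by
      intro ht
      have h1 := congrFun (hkey y ht) x
      simp only [Pi.smul_apply, smul_eq_mul, hx, e, Pi.single_eq_of_ne h, mul_zero] at h1
      rcases mul_eq_zero.1 h1 with h4 | h4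
      · exact absurd h4 L.two_ne
      · exact h4
    have hB4 : ref L.f x y i = L.f x → q = 0 := by
      intro ht
      have h1 := congrFun (hkey x ht) y
      simp only [Pi.smul_apply, smul_eq_mul, hy, e, Pi.single_eq_of_ne hyx, mul_zero] at h1
      rcases mul_eq_zero.1 h1 with h4 | h4
      · exact absurd h4 L.two_ne
      · exact h4
    intro a
    unfold InSupp
    constructor
    · intro ha
      have hmem : a = x ∨ a = y := by
        by_contra hcon
        rw [not_or] at hcon
        apply ha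
        rw [hpq]
        simp [e, hcon.1, hcon.2]
      refine ⟨hmem, ?_⟩
      by_cases hfa : ref L.f x y i = L.f a
      · exact Or.inl hfa
      · right
        rcases hmem with rfl | rfl
        · refine ⟨hfa, ?_⟩
          intro h2
          apply ha
          rw [hx, hB3 h2]
        · refine ⟨?_, hfa⟩
          intro h2
          apply ha
          rw [hy, hB4 h2]
    · rintro ⟨rfl | rfl, hcase⟩
      · rw [hx]
        intro hp
        have h1 := hB1 hp
        rcases hcase with h2 | h2
        · rw [h2] at h1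
          exact h (f_inj L _ _ h1)
        · exact h2.2 h1
      · rw [hy]
        intro hq
        have h1 := hB2 hq
        rcases hcase with h2 | h2
        · rw [h2] at h1
          exact hyx (f_inj L _ _ h1)
        · exact h2.1 h1

end Art.H48
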